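import Pool.Agent.helper13.UN.Spec

/-!
# Row un:SUM (MP_cf4097_nt): splitting over the classes
-/

set_option autoImplicit false

open NumberField Complex

namespace Pool.Agent.UN

open Classical in
/-- the class `c` for which `b c * a` is principal -/
noncomputable def SUM_cl {K : Type} [Field K] [NumberField K] (a : Ideal (𝓞 K)) : ClassGroup (𝓞 K) :=
  if h : a ≠ ⊥ then (ClassGroup.mk0 ⟨a, mem_nonZeroDivisors_iff_ne_zero.2 h⟩)⁻¹ else 1

theorem SUM_prin {K : Type} [Field K] [NumberField K] {b : ClassGroup (𝓞 K) → Ideal (𝓞 K)} (hb : Rep b)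
    (c : ClassGroup (𝓞 K)) (a : Ideal (𝓞 K)) (ha : a ≠ ⊥) :
    (∃ x : 𝓞 K, b c * a = Ideal.span {x}) ↔ SUM_cl a = c := by
  obtain ⟨h, hc⟩ := hb c
  have hba : b c * a ≠ ⊥ := mul_ne_zero h ha
  have h1 : ClassGroup.mk0 ⟨b c * a, mem_nonZeroDivisors_iff_ne_zero.2 hba⟩ =
      c * ClassGroup.mk0 ⟨a, mem_nonZeroDivisors_iff_ne_zero.2 ha⟩ := by
    have h0 : ClassGroup.mk0 ⟨b c, mem_nonZeroDivisors_iff_ne_zero.2 h⟩ * ClassGroup.mk0 ⟨a, mem_nonZeroDivisors_iff_ne_zero.2 ha⟩ =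
        ClassGroup.mk0 ⟨b c * a, mem_nonZeroDivisors_iff_ne_zero.2 hba⟩ := by
      rw [← map_mul]
      rfl
    rw [← h0, hc]
  have h2 : SUM_cl a = (ClassGroup.mk0 ⟨a, mem_nonZeroDivisors_iff_ne_zero.2 ha⟩)⁻¹ := by
    unfold SUM_cl
    rw [dif_pos ha]
  have h3 := ClassGroup.mk0_eq_one_iff (mem_nonZeroDivisors_iff_ne_zero.2 hba)
  rw [h1] at h3
  constructor
  · rintro ⟨x, hx⟩
    have h4 : (b c * a).IsPrincipal := ⟨⟨x, hx⟩⟩
    have h5 := h3.mpr h4
    rw [h2]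
    exact (eq_inv_of_mul_eq_one_left h5).symm
  · intro h4
    rw [h2] at h4
    have h5 : c * ClassGroup.mk0 ⟨a, mem_nonZeroDivisors_iff_ne_zero.2 ha⟩ = 1 := by
      nth_rewrite 1 [← h4]
      exact inv_mul_cancel _
    obtain ⟨⟨x, hx⟩⟩ := h3.mp h5
    exact ⟨x, hx⟩

theorem SUM_nm {K : Type} [Field K] [NumberField K] {f : Ideal (𝓞 K)} (hf : f ≠ ⊥) : 1 ≤ Nm f := by
  unfold Nm
  have h : Ideal.absNorm f ≠ 0 := Ideal.absNorm_ne_zero_iff_mem_nonZeroDivisors.mpr (mem_nonZeroDivisors_iff_ne_zero.2 hf)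
  exact_mod_cast Nat.one_le_iff_ne_zero.mpr h

theorem SUM_nmul {K : Type} [Field K] [NumberField K] (a b : Ideal (𝓞 K)) : Nm (a * b) = Nm a * Nm b := by
  unfold Nm
  rw [map_mul, Nat.cast_mul]

theorem SUM_ph (t u v : ℝ) : ph t (u + v) = ph t u * ph t v := by
  unfold ph
  rw [← Complex.exp_add]
  congr 1
  push_cast
  ring

theorem SUM_phn (t u : ℝ) : ‖ph t u‖ = 1 := by
  unfold ph
  rw [← Complex.ofReal_neg, Complex.norm_exp_ofReal_mul_I]

theorem SUM (hFIN0 : FIN0_stmt) : SUM_stmt := by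
  intro K _ _ f χ b t X V hχ hb hcop hX hV
  classical
  set h : Ideal (𝓞 K) → ℂ := fun a => χ a * ph t (Real.log (Nm a)) * V (Real.log (Nm a) - Real.log X) with hh
  have hfin := (hFIN0 K).2.2 (Real.exp 1 * X)
  set S : Finset (Ideal (𝓞 K)) := hfin.toFinset with hS
  have hmS : ∀ a, a ∈ S ↔ a ≠ ⊥ ∧ Nm a ≤ Real.exp 1 * X := by
    intro a
    rw [hS, Set.Finite.mem_toFinset]
    rfl
  have hVs : ∀ u v : ℝ, 0 < u → 0 < v → V (Real.log u - Real.log v) ≠ 0 → u ≤ Real.exp 1 * v := by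
    intro u v hu hv hne
    have h1 : ¬ 1 < |Real.log u - Real.log v| := fun h' => hne (hV.supp _ h')
    rw [not_lt] at h1
    have h2 : Real.log u ≤ Real.log (Real.exp 1 * v) := by
      rw [Real.log_mul (Real.exp_pos 1).ne' hv.ne', Real.log_exp]
      linarith [(abs_le.mp h1).2]
    exact (Real.log_le_log_iff hu (by positivity)).mp h2
  have hsupp : ∀ a, h a ≠ 0 → a ∈ S := by
    intro a ha
    rw [hmS]
    have ha0 : a ≠ ⊥ := by
      rintro rfl
      refine ha ?_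
      rw [hh]
      change χ ⊥ * _ * _ = 0
      rw [hχ.bot, zero_mul, zero_mul]
    refine ⟨ha0, hVs _ _ (by linarith [SUM_nm ha0]) hX ?_⟩
    intro h0
    refine ha ?_
    rw [hh]
    change χ a * _ * V (Real.log (Nm a) - Real.log X) = 0
    rw [h0, mul_zero]
  have hSS : SS χ t X V = ∑ a ∈ S, h a := by
    unfold SS
    refine finsum_eq_sum_of_support_subset h ?_
    intro a ha
    exact Finset.mem_coe.mpr (hsupp a ha)
  rw [hSS, ← Finset.sum_fiberwise S SUM_cl]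
  refine (norm_sum_le _ _).trans (Finset.sum_le_sum fun c _ => ?_)
  obtain ⟨hbc, -⟩ := hb c
  have hNb : 1 ≤ Nm (b c) := SUM_nm hbc
  set T : Finset (Ideal (𝓞 K)) := (S.filter fun a => SUM_cl a = c).image fun a => b c * a with hT
  have hgg : ∀ a : Ideal (𝓞 K), a ≠ ⊥ → gg χ t (X * Nm (b c)) V (b c * a) = (χ (b c) * ph t (Real.log (Nm (b c)))) * h a := by
    intro a ha
    have hNa := SUM_nm ha
    have hla : Real.log (Nm (b c * a)) = Real.log (Nm (b c)) + Real.log (Nm a) := by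
      rw [SUM_nmul, Real.log_mul (by linarith) (by linarith)]
    have hlx : Real.log (X * Nm (b c)) = Real.log X + Real.log (Nm (b c)) := Real.log_mul hX.ne' (by linarith)
    unfold gg
    rw [hχ.mul, hla, hlx, SUM_ph]
    have e : Real.log (Nm (b c)) + Real.log (Nm a) - (Real.log X + Real.log (Nm (b c))) = Real.log (Nm a) - Real.log X := by ring
    rw [e, hh]
    ring
  have hsum : ∑ᶠ I ∈ Pr (b c), gg χ t (X * Nm (b c)) V I = ∑ I ∈ T, gg χ t (X * Nm (b c)) V I := by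
    refine finsum_mem_eq_sum_of_inter_support_eq _ ?_
    ext I
    constructor
    · rintro ⟨⟨hI0, hIb, x, hx⟩, hsI⟩
      refine ⟨?_, hsI⟩
      obtain ⟨a, rfl⟩ := Ideal.dvd_iff_le.mpr hIb
      have ha : a ≠ ⊥ := by
        rintro rfl
        exact hI0 (mul_zero _)
      rw [Finset.mem_coe, hT, Finset.mem_image]
      refine ⟨a, ?_, rfl⟩
      rw [Finset.mem_filter]
      refine ⟨hsupp a ?_, (SUM_prin hb c a ha).mp ⟨x, hx⟩⟩
      intro h0
      refine hsI ?_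
      rw [hgg a ha, h0, mul_zero]
    · rintro ⟨hIT, hsI⟩
      refine ⟨?_, hsI⟩
      rw [Finset.mem_coe, hT, Finset.mem_image] at hIT
      obtain ⟨a, ha, rfl⟩ := hIT
      rw [Finset.mem_filter, hmS] at ha
      obtain ⟨x, hx⟩ := (SUM_prin hb c a ha.1.1).mpr ha.2
      exact ⟨mul_ne_zero hbc ha.1.1, Ideal.dvd_iff_le.mp (dvd_mul_right _ _), x, hx⟩
  rw [hsum, hT, Finset.sum_image (fun a _ a' _ h' => mul_left_cancel₀ hbc h')]
  have h3 : ∑ a ∈ S.filter (fun a => SUM_cl a = c), gg χ t (X * Nm (b c)) V (b c * a) =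
      (χ (b c) * ph t (Real.log (Nm (b c)))) * ∑ a ∈ S.filter (fun a => SUM_cl a = c), h a := by
    rw [Finset.mul_sum]
    refine Finset.sum_congr rfl fun a ha => ?_
    rw [Finset.mem_filter, hmS] at ha
    exact hgg a ha.1.1
  rw [h3, norm_mul, norm_mul, hχ.unit _ hbc (hcop c), SUM_phn, one_mul, one_mul]

end Pool.Agent.UN
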